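import Mathlib
import Pool.Agent.Helper26.AF.Defs
import Pool.Agent.Helper26.AL.Defs
import Pool.Agent.Helper96.AX.LT

/-!
MP_af6c86_pr.  The left tail of the limits `p_g(l)`, `g` fixed, `l → -∞`: the probability `1 - p_g(l)` that the
critical random graph does not embed on the orientable surface of genus `g` is asymptotic to an explicit
constant times `|l| ^ (-3 r_g)`, where `2 r_g` is the least order of a cubic multigraph which does not embed,
and `r_g / g → 2`.

`Embeds G g` (file `Pool/Agent/Helper26/AF/Defs.lean`): some rotation system of `G` satisfies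
`v - e + f ≥ 2 c - 2 g` (Heffter, Edmonds).  `prm n m P`: the probability of `P` in the uniform random graph
with `n` vertices and `m` edges.  Cubic multigraphs with the vertices `Fin (2 r)` are given by the fixed
point free involutions `κ` (`IsPair κ`) of the half-edges `KX r = Fin (2 r) × Fin 3`; `EmbX g κ`
(`Pool/Agent/Helper26/AL/Defs.lean`) says that the multigraph embeds on the surface of genus `g`.
-/

namespace Pool.Agent.Results.MP_af6c86_pr.LeftTail

open Filter Topology Pool.Agent.Helper26.AF Pool.Agent.Helper26.AL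

/-- The number of the `κ` on `2 r` vertices which do not embed, divided by `(2 r)! 36 ^ r`. -/
noncomputable def bad (g r : ℕ) : ℝ :=
  (Nat.card {κ : Equiv.Perm (KX r) // IsPair κ ∧ ¬ EmbX g κ} : ℝ) / (((2 * r).factorial : ℝ) * 36 ^ r)

/-- There are numbers `p g l` (the limits in the critical window) and `r g` such that
(1) for all `g`, `l` and every sequence `m` with `(m n - n/2) / n^(2/3) → l/2`, the probability that the
uniform random graph with `n` vertices and `m n` edges embeds on the surface of genus `g` tends to `p g l`;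
(2) all cubic multigraphs with `2 s` vertices, `s < r g`, embed on the surface of genus `g`, some
cubic multigraph with `2 r_g` vertices does not;
(3) `|l| ^ (3 r_g) (1 - p_g(l)) → bad g r_g > 0` as `l → -∞`, for every `g`;
(4) `2 g + 1 ≤ r_g ≤ 3 g + 3` and `r_g / g → 2` as `g → ∞`. -/
theorem result : ∃ (p : ℕ → ℝ → ℝ) (r : ℕ → ℕ),
    (∀ (g : ℕ) (l : ℝ) (m : ℕ → ℕ),
      Tendsto (fun n : ℕ => ((m n : ℝ) - n / 2) / (n : ℝ) ^ ((2 : ℝ) / 3)) atTop (𝓝 (l / 2)) →
      Tendsto (fun n : ℕ => prm n (m n) (fun G => Embeds G g)) atTop (𝓝 (p g l))) ∧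
    (∀ g : ℕ, (∀ s < r g, ∀ κ : Equiv.Perm (KX s), IsPair κ → EmbX g κ) ∧
      ∃ κ : Equiv.Perm (KX (r g)), IsPair κ ∧ ¬ EmbX g κ) ∧
    (∀ g : ℕ, 0 < bad g (r g) ∧
      Tendsto (fun l : ℝ => |l| ^ (3 * r g) * (1 - p g l)) atBot (𝓝 (bad g (r g)))) ∧
    (∀ g : ℕ, 2 * g + 1 ≤ r g ∧ r g ≤ 3 * g + 3) ∧
    Tendsto (fun g : ℕ => (r g : ℝ) / g) atTop (𝓝 2) :=
  ⟨Pool.Agent.Helper96.AW.pg, Pool.Agent.Helper96.AX.LT.rr,
    fun g l m hm => Pool.Agent.Helper96.AW.pg_lim g l m hm,
    fun g => ⟨Pool.Agent.Helper96.AX.LT.rr_min g, Pool.Agent.Helper96.AX.LT.rr_spec g⟩,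
    fun g => ⟨Pool.Agent.Helper96.AX.LT.bad_pos g, Pool.Agent.Helper96.AX.LT.lim g⟩,
    fun g => ⟨Pool.Agent.Helper96.AX.LT.le_rr g, Pool.Agent.Helper96.AX.LT.rr_le g⟩,
    Pool.Agent.Helper96.AX.LT.rr_lim⟩

end Pool.Agent.Results.MP_af6c86_pr.LeftTail
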