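import Mathlib
import Pool.Agent.Helper26.AL.Defs
import Pool.Agent.Helper26.AL.Main

/-!
MP_af6c86_pr, Q1.  For every `g` and every real `l` the limit `p_g(l)` of the probability that the critical
random graph embeds on the orientable surface of genus `g` exists, and it is the sum of an absolutely
convergent series: `p_g(l) = ∑' r, bb g r * JJ l r`.

Definitions (`Pool/Agent/Helper26/AF/Defs.lean`, `Pool/Agent/Helper26/AL/Defs.lean`).
* `Embeds G g`: some rotation system of `G` satisfies `v - e + f ≥ 2 c - 2 g` (Heffter, Edmonds).
* `prm n m P`: the probability of `P` in the uniform random graph with `n` vertices and `m` edges.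
* Kernels: cubic multigraphs with vertices `Fin (2 r)` are given by the fixed point free involutions `κ`
  of the half-edges `KX r = Fin (2 r) × Fin 3`; `EmbX g κ` says that the multigraph embeds on the surface of
  genus `g`.  `eg g r` is the number of these `κ` with `EmbX g κ`, divided by `(2 r)! 36^r`;
  `ee r = (6 r - 1)!! / ((2 r)! 36^r)` is the number of all `κ`, divided in the same way.
* `bb g r`: the coefficient of `z^r` in the quotient of `∑ eg g r z^r` by `∑ ee r z^r`.
* `JJ l 0 = 1` and, for `r ≥ 1`, `JJ l r = (∫_(x > 0) x^(3r/2 - 1) exp (-((x - l)³ + l³)/6) dx) / (2^(3r/2) Γ(3r/2))`.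
-/

namespace Pool.Agent.Results.MP_af6c86_pr.LimitFormula

open Filter Topology Pool.Agent.Helper26.AF Pool.Agent.Helper26.AL

/-- For every `g` and `l`: the series converges absolutely, and for every sequence `m` of edge numbers with
`(m n - n/2) / n^(2/3) → l/2` the probability that the uniform random graph with `n` vertices and `m n`
edges embeds on the surface of genus `g` converges to its sum. -/
theorem result (g : ℕ) (l : ℝ) :
    Summable (fun r : ℕ => |bb g r * JJ l r|) ∧
    ∀ m : ℕ → ℕ,
      Tendsto (fun n : ℕ => ((m n : ℝ) - n / 2) / (n : ℝ) ^ ((2 : ℝ) / 3)) atTop (𝓝 (l / 2)) →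
      Tendsto (fun n : ℕ => prm n (m n) (fun G => Embeds G g)) atTop
        (𝓝 (∑' r : ℕ, bb g r * JJ l r)) :=
  allLIMIT g l

end Pool.Agent.Results.MP_af6c86_pr.LimitFormula
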