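import Mathlib
import Pool.Agent.Helper26.AF.Defs
import Pool.Agent.Helper96.AW.All

/-!
MP_af6c86_pr.  The exact exponential rate, as `g → ∞`, of the probabilities `p_g(l)` and `1 - p_g(l)` that the
critical random graph does / does not embed on the orientable surface of genus `g`, for all positions
`l = l_g` of the critical window of the order `g^(1/3)`, the order where the answer changes.

`Embeds G g` (file `Pool/Agent/Helper26/AF/Defs.lean`): some rotation system of `G` satisfies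
`v - e + f ≥ 2 c - 2 g` (Heffter, Edmonds).  `prm n m P`: the probability of `P` in the uniform random graph
with `n` vertices and `m` edges.
-/

namespace Pool.Agent.Results.MP_af6c86_pr.RateFunction

open Filter Topology Pool.Agent.Helper26.AF

/-- The position, in units of `g^(1/3)`, as a function of the parameter `t > 0`. -/
noncomputable def y (t : ℝ) : ℝ := (3 : ℝ) ^ ((1 : ℝ) / 3) * (2 - t) / t ^ ((2 : ℝ) / 3)

/-- Half of the rate. -/
noncomputable def I (t : ℝ) : ℝ := Real.log t + (1 - t) * (2 - t) / t ^ 2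

/-- There are numbers `p g l` (the limits in the critical window) with the following properties.
(1) For all `g`, `l` and every sequence `m` with `(m n - n/2) / n^(2/3) → l/2`, the probability that the
uniform random graph with `n` vertices and `m n` edges embeds on the surface of genus `g` tends to `p g l`.
(2) If `t ≥ 1` and `l g / g^(1/3) → y t` then `log (1 - p g (l g)) / g → - 2 I(t)`.
(3) If `0 < t ≤ 1` and `l g / g^(1/3) → y t` then `log (p g (l g)) / g → - 2 I(t)`.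
(4) `y` is a strictly decreasing bijection of `(0, ∞)` onto the real line, `y 1 = 3^(1/3)`, `y 2 = 0`.
(5) `I 1 = 0`, `I t > 0` for all other `t > 0`, and `I 2 = log 2`. -/
theorem result : ∃ p : ℕ → ℝ → ℝ,
    (∀ (g : ℕ) (l : ℝ) (m : ℕ → ℕ),
      Tendsto (fun n : ℕ => ((m n : ℝ) - n / 2) / (n : ℝ) ^ ((2 : ℝ) / 3)) atTop (𝓝 (l / 2)) →
      Tendsto (fun n : ℕ => prm n (m n) (fun G => Embeds G g)) atTop (𝓝 (p g l))) ∧
    (∀ (t : ℝ) (l : ℕ → ℝ), 1 ≤ t →
      Tendsto (fun g : ℕ => l g / (g : ℝ) ^ ((1 : ℝ) / 3)) atTop (𝓝 (y t)) →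
      Tendsto (fun g : ℕ => Real.log (1 - p g (l g)) / g) atTop (𝓝 (-(2 * I t)))) ∧
    (∀ (t : ℝ) (l : ℕ → ℝ), 0 < t → t ≤ 1 →
      Tendsto (fun g : ℕ => l g / (g : ℝ) ^ ((1 : ℝ) / 3)) atTop (𝓝 (y t)) →
      Tendsto (fun g : ℕ => Real.log (p g (l g)) / g) atTop (𝓝 (-(2 * I t)))) ∧
    (StrictAntiOn y (Set.Ioi 0) ∧ (∀ x : ℝ, ∃ t : ℝ, 0 < t ∧ y t = x) ∧ y 1 = 3 ^ ((1 : ℝ) / 3) ∧
      y 2 = 0) ∧
    I 1 = 0 ∧ (∀ t : ℝ, 0 < t → t ≠ 1 → 0 < I t) ∧ I 2 = Real.log 2 := by
  obtain ⟨h1, h2, _, h4, h5, h6⟩ := Pool.Agent.Helper96.AW.AQ.t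
  refine ⟨Pool.Agent.Helper96.AW.pg, fun g l m hm => Pool.Agent.Helper96.AW.pg_lim g l m hm,
    fun t l ht hl => Pool.Agent.Helper96.AW.SEQ.above Pool.Agent.Helper96.AW.facts ht hl,
    fun t l ht0 ht hl => Pool.Agent.Helper96.AW.SEQ.below Pool.Agent.Helper96.AW.facts ht0 ht hl,
    ⟨h1, h2, h5, h6⟩, ?_, h4, Pool.Agent.Helper96.AW.It_two⟩
  unfold I
  simp

end Pool.Agent.Results.MP_af6c86_pr.RateFunction
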