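import Mathlib
import Pool.Agent.Helper26.AF.Defs
import Pool.Agent.Helper96.AX.Up
import Pool.Agent.Helper96.AX.Low

/-!
MP_af6c86_pr.  The right tail of the limits `p_g(l)`: bounds which hold for all `g ≥ 0` and `l ≥ 0`, with one
absolute constant `B`, and which show `log p_g(l) = - l³/6 + Θ(l)` as `l → ∞` for every fixed `g`.

`Embeds G g` (file `Pool/Agent/Helper26/AF/Defs.lean`): some rotation system of `G` satisfies
`v - e + f ≥ 2 c - 2 g` (Heffter, Edmonds).  `prm n m P`: the probability of `P` in the uniform random graph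
with `n` vertices and `m` edges.
-/

namespace Pool.Agent.Results.MP_af6c86_pr.RightTail

open Filter Topology Pool.Agent.Helper26.AF

/-- There are numbers `p g l` (the limits in the critical window) and a constant `B` such that
(1) for all `g`, `l` and every sequence `m` with `(m n - n/2) / n^(2/3) → l/2`, the probability that the
uniform random graph with `n` vertices and `m n` edges embeds on the surface of genus `g` tends to `p g l`;
(2) `exp (-l³/6 + l/20 - B) ≤ p g l ≤ (2 g)! exp (-l³/6 + B l + B)` for all `g ≥ 0` and all `l ≥ 0`. -/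
theorem result : ∃ p : ℕ → ℝ → ℝ,
    (∀ (g : ℕ) (l : ℝ) (m : ℕ → ℕ),
      Tendsto (fun n : ℕ => ((m n : ℝ) - n / 2) / (n : ℝ) ^ ((2 : ℝ) / 3)) atTop (𝓝 (l / 2)) →
      Tendsto (fun n : ℕ => prm n (m n) (fun G => Embeds G g)) atTop (𝓝 (p g l))) ∧
    ∃ B : ℝ, ∀ (g : ℕ) (l : ℝ), 0 ≤ l →
      Real.exp (-(l ^ 3 / 6) + l / 20 - B) ≤ p g l ∧
      p g l ≤ ((2 * g).factorial : ℝ) * Real.exp (-(l ^ 3 / 6) + B * l + B) := by
  refine ⟨Pool.Agent.Helper96.AW.pg, fun g l m hm => Pool.Agent.Helper96.AW.pg_lim g l m hm, ?_⟩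
  obtain ⟨B₁, h₁⟩ := Pool.Agent.Helper96.AX.Low.lower
  obtain ⟨B₂, -, h₂⟩ := Pool.Agent.Helper96.AX.Up.upper
  refine ⟨max B₁ B₂, fun g l hl => ⟨le_trans (Real.exp_le_exp.2 ?_) (h₁ g l hl),
    (h₂ g l hl).trans (mul_le_mul_of_nonneg_left (Real.exp_le_exp.2 ?_) (by positivity))⟩⟩
  · have := le_max_left B₁ B₂
    linarith
  · have h3 := le_max_right B₁ B₂
    have h4 : B₂ * l ≤ max B₁ B₂ * l := mul_le_mul_of_nonneg_right h3 hl
    linarith

end Pool.Agent.Results.MP_af6c86_pr.RightTail
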